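import Pool.Agent.H63.GA.PA1

/-!
Row PA2 of gaa_modules (MP_52e316_nt): the scalar product with `F`, dual side.
-/

set_option autoImplicit false

namespace Pool.Agent.H31.GA

open MeasureTheory Pool.Agent.H34.GM Pool.Agent.H34.GU Pool.Agent.H34.GA
open Pool.Agent.H34.GZ hiding cf
open Pool.Agent.H63.GA (p_det_ne p_cont_aN p_cont_inv p_bd p_fin p_fub p_int)

/-- sums of dominated terms are integrable -/
private theorem gen {Ω ι : Type} [MeasurableSpace Ω] (μ : Measure Ω) [Countable ι] (t : ι → Ω → ℂ)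
    (hmeas : ∀ i, AEStronglyMeasurable (t i) μ)
    (hfin : ∫⁻ ω, ∑' i, ‖t i ω‖ₑ ∂μ ≠ ⊤) :
    Integrable (fun ω => ∑' i, t i ω) μ := by
  have hPm : AEMeasurable (fun ω => ∑' i, ‖t i ω‖ₑ) μ :=
    AEMeasurable.tsum fun i => (hmeas i).enorm
  have hae : ∀ᵐ ω ∂μ, ∑' i, ‖t i ω‖ₑ < ⊤ := ae_lt_top' hPm hfin
  have hsum : ∀ᵐ ω ∂μ, Summable fun i => ‖t i ω‖ := by
    filter_upwards [hae] with ω h2
    exact tsum_enorm_ne_top_iff_summable_norm.mp h2.ne
  refine ⟨?_, ?_⟩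
  · refine aestronglyMeasurable_of_tendsto_ae (Filter.atTop : Filter (Finset ι))
      (f := fun A ω => ∑ i ∈ A, t i ω) ?_ ?_
    · intro A
      exact Finset.aestronglyMeasurable_fun_sum A fun i _ => hmeas i
    · filter_upwards [hsum] with ω h
      exact (Summable.of_norm h).hasSum
  · have h1 : ∫⁻ ω, ‖∑' i, t i ω‖ₑ ∂μ ≤ ∫⁻ ω, ∑' i, ‖t i ω‖ₑ ∂μ :=
      lintegral_mono fun ω => enorm_tsum_le_tsum_enorm
    exact lt_of_le_of_lt h1 hfin.lt_top

/-- the mass of a rapidly decreasing function on the shell -/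
theorem psi_int (hUBD : T_UBD) {m : ℕ} (hm1 : 1 ≤ m) {Ψ : Mat m → ℂ} (hΨ : Dg m Ψ) {K : ℝ}
    (hK : (m : ℝ) ^ 2 ≤ K) : ∃ C0 : ℝ, 0 ≤ C0 ∧ ∀ r : ℝ, 0 < r →
      Integrable (fun z : V m => Ψ ((r⁻¹ * (aN (mt z))⁻¹) • mt z)) ((hm m).restrict (Shell m)) ∧
      ∫ z in Shell m, ‖Ψ ((r⁻¹ * (aN (mt z))⁻¹) • mt z)‖ ∂(hm m) ≤ C0 * r ^ K := by
  obtain ⟨N, C, hC, h⟩ := hUBD m hm1 K hK
  obtain ⟨M, hM, hb⟩ := hΨ.dec N
  have hcof : Cof m (fun _ => (1 : ℂ)) 1 :=
    ⟨aestronglyMeasurable_const, fun _ _ _ _ => rfl, fun _ _ => by simp⟩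
  refine ⟨C * 1 * M, by positivity, fun r hr => ⟨?_, ?_⟩⟩
  · have h1 := (h (fun _ => 1) Ψ 1 M hcof zero_le_one hM hΨ.cont hb r hr).1
    simp only [mul_one] at h1
    exact h1
  · have h2 := (h (fun _ => 1) (fun z => ((‖Ψ z‖ : ℝ) : ℂ)) 1 M hcof zero_le_one hM
      (Complex.continuous_ofReal.comp hΨ.cont.norm) (fun z => by
        rw [Complex.norm_real, norm_norm]
        exact hb z) r hr).2
    unfold uu at h2
    simp only [mul_one] at h2
    have h3 : ∫ z in Shell m, ((‖Ψ ((r⁻¹ * (aN (mt z))⁻¹) • mt z)‖ : ℝ) : ℂ) ∂(hm m) =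
        ((∫ z in Shell m, ‖Ψ ((r⁻¹ * (aN (mt z))⁻¹) • mt z)‖ ∂(hm m) : ℝ) : ℂ) :=
      integral_complex_ofReal
    rw [h3, Complex.norm_real, Real.norm_of_nonneg (integral_nonneg fun z => norm_nonneg _)] at h2
    rw [mul_one]
    exact h2

/-- bound for the convolution -/
theorem rr_bd {m N : ℕ} (hm1 : 1 ≤ m) {F : Mat m → VN m N → ℂ} {BF : ℝ}
    (hBF : ∀ g x, g.det ≠ 0 → ‖F g x‖ ≤ BF) {Ψ : Mat m → ℂ} {r : ℝ}
    (hSh : MeasurableSet (Shell m))
    (hi : Integrable (fun z : V m => Ψ ((r⁻¹ * (aN (mt z))⁻¹) • mt z)) ((hm m).restrict (Shell m)))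
    {g : Mat m} (hg : g.det ≠ 0) (x : VN m N) :
    ‖Rr Ψ r F g x‖ ≤ (∫ z in Shell m, ‖Ψ ((r⁻¹ * (aN (mt z))⁻¹) • mt z)‖ ∂(hm m)) * BF := by
  unfold Rr
  rw [← integral_mul_const]
  refine norm_integral_le_of_norm_le (hi.norm.mul_const BF) ?_
  rw [ae_restrict_iff' hSh]
  refine Filter.Eventually.of_forall fun z hz => ?_
  rw [norm_mul]
  refine mul_le_mul_of_nonneg_left (hBF _ _ ?_) (norm_nonneg _)
  rw [Matrix.det_mul, Matrix.det_nonsing_inv, Ring.inverse_eq_inv']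
  exact mul_ne_zero hg (inv_ne_zero (p_det_ne hm1 hz.1))

/-- Fubini, dual side -/
theorem fub2 (hUBD : T_UBD) (hMSR : T_MSR) (hVLM : T_VLM) {m N : ℕ} [NeZero N]
    {T : ℕ → Finset (ZM m)} {D : Set (V m)} (hS : SysZ m N T D) {F : Mat m → VN m N → ℂ}
    {lam : ℕ → ℂ} (hF : HecA m N T F lam) {Ψ : Mat m → ℂ} (hΨ : Dg m Ψ) {r : ℝ} (hr : 0 < r)
    {A : Mat m} (hA : A.det ≠ 0) {G : Mat m → ℂ} (hG : ContinuousOn G {g | g.det ≠ 0}) {BG : ℝ}
    (hBG : ∀ g, g.det ≠ 0 → ‖G g‖ ≤ BG) (x : VN m N) :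
    Integrable (fun h : V m => (starRingEnd ℂ) (G (mt h)) * Rr Ψ r F (A * mt h) x)
      ((hm m).restrict D) ∧
    Integrable (fun z : V m => Ψ ((r⁻¹ * (aN (mt z))⁻¹) • mt z) *
      ∫ h in D, (starRingEnd ℂ) (G (mt h)) * F (A * mt h * (mt z)⁻¹) x ∂(hm m))
      ((hm m).restrict (Shell m)) ∧
    ∫ h in D, (starRingEnd ℂ) (G (mt h)) * Rr Ψ r F (A * mt h) x ∂(hm m) =
      ∫ z in Shell m, Ψ ((r⁻¹ * (aN (mt z))⁻¹) • mt z) *
        ∫ h in D, (starRingEnd ℂ) (G (mt h)) * F (A * mt h * (mt z)⁻¹) x ∂(hm m) ∂(hm m) := by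
  have hm1 := hS.one_le
  have hD := hS.dom
  obtain ⟨C, K, -, hvl⟩ := hVLM m hm1
  have hfin : hm m D < ⊤ := lt_of_le_of_lt (hvl D hD).1 ENNReal.ofReal_lt_top
  have hfm : IsFiniteMeasure ((hm m).restrict D) := ⟨by rwa [Measure.restrict_apply_univ]⟩
  obtain ⟨-, -, -, -, hsig, hSh, -, -⟩ := hMSR.1 m
  obtain ⟨BF, hBF⟩ := hF.bdd
  have hsD : ∀ z ∈ D, (mt z).det ≠ 0 := fun z hz => p_det_ne hm1 (hD.shell z hz).1
  have hsS : ∀ z ∈ Shell m, (mt z).det ≠ 0 := fun z hz => p_det_ne hm1 hz.1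
  have hdet : ∀ g ∈ D, ∀ z ∈ Shell m, (A * mt g * (mt z)⁻¹ : Mat m).det ≠ 0 := by
    intro g hg z hz
    rw [Matrix.det_mul, Matrix.det_mul, Matrix.det_nonsing_inv, Ring.inverse_eq_inv']
    exact mul_ne_zero (mul_ne_zero hA (hsD g hg)) (inv_ne_zero (hsS z hz))
  obtain ⟨C0, hC0, hψ⟩ := psi_int hUBD hm1 hΨ (K := (m : ℝ) ^ 2) le_rfl
  have hψi := (hψ r hr).1
  -- the integrand
  have hint : Integrable (fun p : V m × V m =>
      Ψ ((r⁻¹ * (aN (mt p.2))⁻¹) • mt p.2) * F (A * mt p.1 * (mt p.2)⁻¹) x *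
        (starRingEnd ℂ) (G (mt p.1)))
      (((hm m).restrict D).prod ((hm m).restrict (Shell m))) := by
    have h1 : Integrable (fun p : V m × V m => (BF * BG : ℝ) *
        ‖Ψ ((r⁻¹ * (aN (mt p.2))⁻¹) • mt p.2)‖)
        (((hm m).restrict D).prod ((hm m).restrict (Shell m))) :=
      (integrable_const (BF * BG : ℝ)).mul_prod hψi.norm
    refine h1.mono' ?_ ?_
    · rw [Measure.prod_restrict]
      refine ContinuousOn.aestronglyMeasurable ?_ (hD.meas.prod hSh)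
      have hc1 : ContinuousOn (fun p : V m × V m => (r⁻¹ * (aN (mt p.2))⁻¹) • mt p.2)
          (D ×ˢ Shell m) := by
        have e0 : ContinuousOn (fun p : V m × V m => aN (mt p.2 : Mat m)) (D ×ˢ Shell m) :=
          ((p_cont_aN m).comp (f := fun p : V m × V m => (mt p.2 : Mat m))
            continuous_snd).continuousOn
        have e1 : ContinuousOn (fun p : V m × V m => r⁻¹ * (aN (mt p.2 : Mat m))⁻¹)
            (D ×ˢ Shell m) :=
          continuousOn_const.mul (e0.inv₀ fun p hp => (lt_of_lt_of_le one_pos hp.2.1).ne')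
        have e2 : ContinuousOn (fun p : V m × V m => (mt p.2 : Mat m)) (D ×ˢ Shell m) :=
          (continuous_snd (X := V m) (Y := V m)).continuousOn
        exact e1.smul e2
      have hc2 : ContinuousOn (fun p : V m × V m => (A * mt p.1 * (mt p.2)⁻¹ : Mat m))
          (D ×ˢ Shell m) := by
        have e1 : ContinuousOn (fun p : V m × V m => (A * mt p.1 : Mat m)) (D ×ˢ Shell m) := by
          refine ContinuousOn.mul continuousOn_const ?_
          exact (continuous_fst (X := V m) (Y := V m)).continuousOn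
        have e2 : ContinuousOn (fun p : V m × V m => ((mt p.2)⁻¹ : Mat m)) (D ×ˢ Shell m) := by
          refine (p_cont_inv m).comp (f := fun p : V m × V m => (mt p.2 : Mat m)) ?_
            (fun p hp => hsS _ hp.2)
          exact (continuous_snd (X := V m) (Y := V m)).continuousOn
        exact e1.mul e2
      refine ContinuousOn.mul (ContinuousOn.mul ?_ ?_) ?_
      · exact hΨ.cont.comp_continuousOn hc1
      · exact (hF.cont x).comp hc2 (fun p hp => hdet _ hp.1 _ hp.2)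
      · refine Complex.continuous_conj.comp_continuousOn ?_
        exact hG.comp (f := fun p : V m × V m => (mt p.1 : Mat m))
          continuous_fst.continuousOn fun p hp => hsD _ hp.1
    · rw [Measure.prod_restrict, ae_restrict_iff' (hD.meas.prod hSh)]
      refine Filter.Eventually.of_forall fun p hp => ?_
      have h2 := hBF (A * mt p.1 * (mt p.2)⁻¹) x (hdet _ hp.1 _ hp.2)
      have h3 := hBG (mt p.1) (hsD _ hp.1)
      have hB0 : 0 ≤ BF := (norm_nonneg _).trans h2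
      rw [norm_mul, norm_mul, RCLike.norm_conj]
      calc ‖Ψ ((r⁻¹ * (aN (mt p.2))⁻¹) • mt p.2)‖ * ‖F (A * mt p.1 * (mt p.2)⁻¹) x‖ *
            ‖G (mt p.1)‖
          ≤ ‖Ψ ((r⁻¹ * (aN (mt p.2))⁻¹) • mt p.2)‖ * BF * BG := by gcongr
        _ = _ := by ring
  have hRr : ∀ g : V m, ∫ z in Shell m,
      Ψ ((r⁻¹ * (aN (mt z))⁻¹) • mt z) * F (A * mt g * (mt z)⁻¹) x *
        (starRingEnd ℂ) (G (mt g)) ∂(hm m) =
      (starRingEnd ℂ) (G (mt g)) * Rr Ψ r F (A * mt g) x := by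
    intro g
    rw [integral_mul_const, mul_comm]
    rfl
  have hzz : ∀ z : V m, ∫ h in D, Ψ ((r⁻¹ * (aN (mt z))⁻¹) • mt z) *
        F (A * mt h * (mt z)⁻¹) x * (starRingEnd ℂ) (G (mt h)) ∂(hm m) =
      Ψ ((r⁻¹ * (aN (mt z))⁻¹) • mt z) *
        ∫ h in D, (starRingEnd ℂ) (G (mt h)) * F (A * mt h * (mt z)⁻¹) x ∂(hm m) := by
    intro z
    rw [← integral_const_mul]
    refine integral_congr_ae (Filter.Eventually.of_forall fun h => ?_)
    show _ * _ * _ = _ * (_ * _)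
    ring
  refine ⟨?_, ?_, ?_⟩
  · exact hint.integral_prod_left.congr (Filter.Eventually.of_forall fun g => hRr g)
  · exact hint.integral_prod_right.congr (Filter.Eventually.of_forall fun z => hzz z)
  · have h1 := integral_integral_swap (μ := (hm m).restrict D) (ν := (hm m).restrict (Shell m))
      (f := fun g z : V m => Ψ ((r⁻¹ * (aN (mt z))⁻¹) • mt z) * F (A * mt g * (mt z)⁻¹) x *
        (starRingEnd ℂ) (G (mt g))) hint
    rw [show (∫ h in D, (starRingEnd ℂ) (G (mt h)) * Rr Ψ r F (A * mt h) x ∂(hm m)) =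
      ∫ g in D, ∫ z in Shell m, Ψ ((r⁻¹ * (aN (mt z))⁻¹) • mt z) *
        F (A * mt g * (mt z)⁻¹) x * (starRingEnd ℂ) (G (mt g)) ∂(hm m) ∂(hm m) from
      integral_congr_ae (Filter.Eventually.of_forall fun g => (hRr g).symm), h1]
    exact integral_congr_ae (Filter.Eventually.of_forall fun z => hzz z)

/-- the sum over `n`, dual side -/
theorem dual_sum (hUBD : T_UBD) (hMSR : T_MSR) (hVLM : T_VLM) (hLMA : T_LMA) {m N : ℕ} [NeZero N]
    {T : ℕ → Finset (ZM m)} {D : Set (V m)} (hS : SysZ m N T D) {F : Mat m → VN m N → ℂ}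
    {lam : ℕ → ℂ} (hF : HecA m N T F lam) (hnz : NZ F) {Ψ : Mat m → ℂ} (hΨ : Dg m Ψ) {ρ : ℝ}
    (hρ : 0 < ρ) {A : Mat m} (hA : A.det ≠ 0) {G : Mat m → ℂ}
    (hG : ContinuousOn G {g | g.det ≠ 0}) {BG : ℝ}
    (hBG : ∀ g, g.det ≠ 0 → ‖G g‖ ≤ BG) (x : VN m N) :
    Integrable (fun h : V m => (starRingEnd ℂ) (G (mt h)) *
      thA m (fun r' => Rr Ψ r' F (A * mt h) x) lam ρ) ((hm m).restrict D) ∧
    Summable (fun n : ℕ => if 1 ≤ n then (n : ℂ) ^ (((m : ℂ) - 1) / 2) * lam n *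
      ∫ h in D, (starRingEnd ℂ) (G (mt h)) *
        Rr Ψ (ρ * (n : ℝ) ^ (-(1 / (m : ℝ)))) F (A * mt h) x ∂(hm m) else 0) ∧
    ∫ h in D, (starRingEnd ℂ) (G (mt h)) *
      thA m (fun r' => Rr Ψ r' F (A * mt h) x) lam ρ ∂(hm m) =
    ∑' n : ℕ, if 1 ≤ n then (n : ℂ) ^ (((m : ℂ) - 1) / 2) * lam n *
      ∫ h in D, (starRingEnd ℂ) (G (mt h)) *
        Rr Ψ (ρ * (n : ℝ) ^ (-(1 / (m : ℝ)))) F (A * mt h) x ∂(hm m) else 0 := by
  have hm1 := hS.one_le
  have hD := hS.dom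
  obtain ⟨C, K, -, hvl⟩ := hVLM m hm1
  have hfin : hm m D < ⊤ := lt_of_le_of_lt (hvl D hD).1 ENNReal.ofReal_lt_top
  have hfm : IsFiniteMeasure ((hm m).restrict D) := ⟨by rwa [Measure.restrict_apply_univ]⟩
  obtain ⟨-, -, -, -, hsig, hSh, -, -⟩ := hMSR.1 m
  obtain ⟨BF, hBF⟩ := hF.bdd
  obtain ⟨C1, hC1, hlam⟩ := hLMA m N T D hS F lam hF hnz
  have hsD : ∀ z ∈ D, (mt z).det ≠ 0 := fun z hz => p_det_ne hm1 (hD.shell z hz).1
  have hAD : ∀ z ∈ D, (A * mt z).det ≠ 0 := fun z hz => by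
    rw [Matrix.det_mul]
    exact mul_ne_zero hA (hsD z hz)
  have hm0 : (0 : ℝ) < m := by exact_mod_cast hm1
  have hB0 : 0 ≤ BF := by
    obtain ⟨g, y, hg, -⟩ := hnz
    exact (norm_nonneg _).trans (hBF g y hg)
  have hBG0 : 0 ≤ BG := by
    obtain ⟨g, y, hg, -⟩ := hnz
    exact (norm_nonneg _).trans (hBG g hg)
  have hKle : (m : ℝ) ^ 2 ≤ (m : ℝ) * (m + 2) := by nlinarith
  obtain ⟨C0, hC0, hψ⟩ := psi_int hUBD hm1 hΨ hKle
  have hrn : ∀ n : ℕ, 1 ≤ n → 0 < ρ * (n : ℝ) ^ (-(1 / (m : ℝ))) := by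
    intro n hn
    have : (0 : ℝ) < n := by exact_mod_cast hn
    positivity
  -- the terms
  obtain ⟨t, ht⟩ : ∃ t : ℕ → V m → ℂ, t = fun (n : ℕ) (h : V m) => if 1 ≤ n then
      (n : ℂ) ^ (((m : ℂ) - 1) / 2) * lam n * ((starRingEnd ℂ) (G (mt h)) *
        Rr Ψ (ρ * (n : ℝ) ^ (-(1 / (m : ℝ)))) F (A * mt h) x) else 0 := ⟨_, rfl⟩
  have htn : ∀ n : ℕ, 1 ≤ n → ∀ h, t n h = (n : ℂ) ^ (((m : ℂ) - 1) / 2) * lam n *
      ((starRingEnd ℂ) (G (mt h)) *
        Rr Ψ (ρ * (n : ℝ) ^ (-(1 / (m : ℝ)))) F (A * mt h) x) := by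
    intro n hn h
    rw [ht]
    exact if_pos hn
  have ht0 : ∀ n : ℕ, ¬ 1 ≤ n → ∀ h, t n h = 0 := by
    intro n hn h
    rw [ht]
    exact if_neg hn
  have hti : ∀ n, Integrable (t n) ((hm m).restrict D) := by
    intro n
    by_cases hn : 1 ≤ n
    · have h1 := (fub2 hUBD hMSR hVLM hS hF hΨ (hrn n hn) hA hG hBG x).1.const_mul
        ((n : ℂ) ^ (((m : ℂ) - 1) / 2) * lam n)
      exact h1.congr (Filter.Eventually.of_forall fun h => (htn n hn h).symm)
    · have h1 : t n = fun _ => 0 := funext (ht0 n hn)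
      rw [h1]
      exact integrable_zero _ _ _
  -- the bound
  obtain ⟨E, hE⟩ : ∃ E : ℝ, E = C1 * BG * (C0 * ρ ^ ((m : ℝ) * (m + 2)) * BF) := ⟨_, rfl⟩
  have hE0 : 0 ≤ E := by
    rw [hE]
    positivity
  have hbd : ∀ n : ℕ, ∀ h ∈ D, ‖t n h‖ ≤ E * ((n : ℝ) ^ 2)⁻¹ := by
    intro n h hh
    by_cases hn : 1 ≤ n
    · have hn0 : (0 : ℝ) < n := by exact_mod_cast hn
      rw [htn n hn h, norm_mul ((n : ℂ) ^ (((m : ℂ) - 1) / 2) * lam n),
        norm_mul ((starRingEnd ℂ) (G (mt h))), RCLike.norm_conj]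
      have h1 := hlam n hn
      have h2 := hBG (mt h) (hsD h hh)
      have h3 := (rr_bd hm1 hBF hSh (hψ _ (hrn n hn)).1 (hAD h hh) x).trans
        (mul_le_mul_of_nonneg_right (hψ _ (hrn n hn)).2 hB0)
      have h4 : (ρ * (n : ℝ) ^ (-(1 / (m : ℝ)))) ^ ((m : ℝ) * (m + 2)) =
          ρ ^ ((m : ℝ) * (m + 2)) * ((n : ℝ) ^ (m + 2))⁻¹ := by
        rw [Real.mul_rpow hρ.le (by positivity), ← Real.rpow_mul hn0.le]
        congr 1
        have e1 : -(1 / (m : ℝ)) * ((m : ℝ) * (m + 2)) = -(((m + 2 : ℕ) : ℝ)) := by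
          push_cast
          field_simp
        rw [e1, Real.rpow_neg hn0.le, Real.rpow_natCast]
      rw [h4] at h3
      calc ‖(n : ℂ) ^ (((m : ℂ) - 1) / 2) * lam n‖ * (‖G (mt h)‖ *
            ‖Rr Ψ (ρ * (n : ℝ) ^ (-(1 / (m : ℝ)))) F (A * mt h) x‖)
          ≤ (C1 * (n : ℝ) ^ m) * (BG * (C0 * (ρ ^ ((m : ℝ) * (m + 2)) *
            ((n : ℝ) ^ (m + 2))⁻¹) * BF)) := by gcongr
        _ = E * ((n : ℝ) ^ 2)⁻¹ := by
            rw [hE, pow_add]
            field_simp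
    · rw [ht0 n hn h, norm_zero]
      positivity
  have hsumb : Summable (fun n : ℕ => E * ((n : ℝ) ^ 2)⁻¹) :=
    (Real.summable_nat_pow_inv.2 (by norm_num)).mul_left E
  have hsi : Summable fun n => ∫ h in D, ‖t n h‖ ∂(hm m) := by
    refine Summable.of_nonneg_of_le (fun n => integral_nonneg fun h => norm_nonneg _) (fun n => ?_)
      (hsumb.mul_left ((hm m).real D))
    have h1 : ∫ h in D, ‖t n h‖ ∂(hm m) ≤ ∫ _ in D, E * ((n : ℝ) ^ 2)⁻¹ ∂(hm m) := by
      refine setIntegral_mono_on (hti n).norm (integrable_const _) hD.meas fun h hh => ?_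
      exact hbd n h hh
    refine h1.trans (le_of_eq ?_)
    rw [setIntegral_const, smul_eq_mul]
  have hth : ∀ h : V m, (starRingEnd ℂ) (G (mt h)) *
      thA m (fun r' => Rr Ψ r' F (A * mt h) x) lam ρ = ∑' n, t n h := by
    intro h
    unfold thA
    rw [← tsum_mul_left]
    refine tsum_congr fun n => ?_
    by_cases hn : 1 ≤ n
    · rw [if_pos hn, htn n hn h]
      ring
    · rw [if_neg hn, ht0 n hn h, mul_zero]
  have hterm : ∀ n : ℕ, ∫ h in D, t n h ∂(hm m) = if 1 ≤ n then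
      (n : ℂ) ^ (((m : ℂ) - 1) / 2) * lam n * ∫ h in D, (starRingEnd ℂ) (G (mt h)) *
        Rr Ψ (ρ * (n : ℝ) ^ (-(1 / (m : ℝ)))) F (A * mt h) x ∂(hm m) else 0 := by
    intro n
    by_cases hn : 1 ≤ n
    · rw [if_pos hn, ← integral_const_mul]
      exact integral_congr_ae (Filter.Eventually.of_forall fun h => htn n hn h)
    · rw [if_neg hn]
      simp only [ht0 n hn, integral_zero]
  have hswap := integral_tsum_of_summable_integral_norm hti hsi
  refine ⟨?_, ?_, ?_⟩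
  · have h1 : Integrable (fun h => ∑' n, t n h) ((hm m).restrict D) := by
      refine gen _ t (fun n => (hti n).1) ?_
      rw [lintegral_tsum fun n => (hti n).1.enorm]
      have h2 : ∀ n, ∫⁻ h in D, ‖t n h‖ₑ ∂(hm m) =
          ENNReal.ofReal (∫ h in D, ‖t n h‖ ∂(hm m)) := by
        intro n
        rw [ofReal_integral_norm_eq_lintegral_enorm (hti n)]
      simp only [h2]
      rw [← ENNReal.ofReal_tsum_of_nonneg (fun n => integral_nonneg fun h => norm_nonneg _) hsi]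
      exact ENNReal.ofReal_ne_top
    exact h1.congr (Filter.Eventually.of_forall fun h => (hth h).symm)
  · have h1 : Summable fun n => ∫ h in D, t n h ∂(hm m) :=
      Summable.of_norm_bounded hsi fun n => norm_integral_le_integral_norm _
    refine h1.congr fun n => ?_
    exact hterm n
  · rw [show (∫ h in D, (starRingEnd ℂ) (G (mt h)) *
        thA m (fun r' => Rr Ψ r' F (A * mt h) x) lam ρ ∂(hm m)) = ∫ h in D, ∑' n, t n h ∂(hm m)
      from integral_congr_ae (Filter.Eventually.of_forall hth), ← hswap]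
    exact tsum_congr hterm

private theorem conj_int {m : ℕ} {μ : Measure (V m)} {f : V m → ℂ} (hf : Integrable f μ) :
    Integrable (fun z => (starRingEnd ℂ) (f z)) μ :=
  hf.congr' (Complex.continuous_conj.comp_aestronglyMeasurable hf.1)
    (Filter.Eventually.of_forall fun _ => (RCLike.norm_conj _).symm)

/-- PA2. -/
theorem pf_PA2 (hEIA : T_EIA) (hACA : T_ACA) (hADR : T_ADR) (hADB : Pool.Agent.H34.GA.T_ADB)
    (hEGA : T_EGA) (hFTB : T_FTB) (hLMA : T_LMA) (hUBD : T_UBD) (hMSR : T_MSR) (hVLM : T_VLM)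
    (hPSU : T_PSU) : T_PA2 := by
  classical
  intro m N _ T D hS H xv hFrk F lam hF hnz Φ hΦ hAdm r hr
  have hcZ : Countable (ZM m) := inferInstanceAs (Countable (Fin m → Fin m → ℤ))
  have hm1 := hS.one_le
  have hN2 := hS.two_le
  have hD := hS.dom
  have hN : (0 : ℝ) < N := by exact_mod_cast (by omega : 0 < N)
  have hH := hF.toHecA
  have hΦ' := hΦ.toTg
  obtain ⟨C, K, -, hvl⟩ := hVLM m hm1
  have hfin : hm m D < ⊤ := lt_of_le_of_lt (hvl D hD).1 ENNReal.ofReal_lt_top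
  have hfm : IsFiniteMeasure ((hm m).restrict D) := ⟨by rwa [Measure.restrict_apply_univ]⟩
  obtain ⟨BF, hBF⟩ := hF.bdd
  have hκ0 : 0 < kp m N := by
    unfold kp
    positivity
  obtain ⟨ρ, hρ⟩ : ∃ ρ : ℝ, ρ = kp m N / r := ⟨_, rfl⟩
  have hρ0 : 0 < ρ := by
    rw [hρ]
    exact div_pos hκ0 hr
  obtain ⟨-, -, hpn, -, -⟩ := hPSU m N hm1 hN2
  obtain ⟨-, hdm, -, -, hsig, -, hkkm, hΦm⟩ := hMSR.1 m
  have hdet : ∀ z ∈ D, (mt z).det ≠ 0 := fun z hz => p_det_ne hm1 (hD.shell z hz).1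
  have hDΨ := (hFTB m hm1 Φ hΦ).1
  have hcf : ∀ w, (starRingEnd ℂ) (cf Φ w) = ft Φ w := fun w => Complex.conj_conj _
  have hDΦ : Dg m Φ := ⟨hΦ'.cont, fun n => p_bd hΦ' n⟩
  have hAΦ : Adm F Φ := by
    refine Or.inr fun w hw => ?_
    obtain ⟨c, hc, hs⟩ := hΦ'.supp
    by_contra h0
    have h1 := (hs w h0).2
    rw [hw, abs_zero] at h1
    exact absurd h1 (not_le.2 (inv_pos.2 hc))
  -- the transform of the form
  obtain ⟨G, hG⟩ : ∃ G : VN m N → Mat m → ℂ, G = fun v g => ∑ y, psn N (dt v y) * F g y :=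
    ⟨_, rfl⟩
  have hGe : ∀ v g, ∑ y, psn N (dt v y) * F g y = G v g := fun v g => by rw [hG]
  have hGc : ∀ v, ContinuousOn (G v) {g | g.det ≠ 0} := by
    intro v
    rw [hG]
    exact continuousOn_finsetSum _ fun y _ => continuousOn_const.mul (hF.cont y)
  have hGb : ∀ v g, g.det ≠ 0 → ‖G v g‖ ≤ (Fintype.card (VN m N) : ℝ) * BF := by
    intro v g hg
    rw [← hGe]
    refine (norm_sum_le _ _).trans ?_
    have h1 : ∀ y ∈ (Finset.univ : Finset (VN m N)), ‖psn N (dt v y) * F g y‖ ≤ BF := by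
      intro y _
      rw [norm_mul, hpn, one_mul]
      exact hBF g y hg
    refine (Finset.sum_le_card_nsmul _ _ _ h1).trans (le_of_eq ?_)
    rw [nsmul_eq_mul, Finset.card_univ]
  have hHdet : ∀ v : VN m N, Pr v → (cR (H v)).det ≠ 0 := by
    intro v hv
    have h1 : (cR (H v)).det = (((H v).det : ℤ) : ℝ) :=
      ((Int.castRingHom ℝ).map_det (H v)).symm
    have h2 := hFrk.det v hv
    have h3 : (H v).det ≠ 0 := by
      intro h0
      rw [h0, Int.natAbs_zero] at h2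
      have h4 : 0 < N ^ (m - 1) := Nat.pow_pos (by omega)
      omega
    rw [h1]
    exact_mod_cast h3
  have hHD : ∀ v : VN m N, Pr v → ∀ z ∈ D, (cR (H v) * mt z).det ≠ 0 := by
    intro v hv z hz
    rw [Matrix.det_mul]
    exact mul_ne_zero (hHdet v hv) (hdet z hz)
  -- measurability and integrability
  have hsm : ∀ x, AEStronglyMeasurable (fun z : V m => F (mt z) x) ((hm m).restrict D) := by
    intro x
    have h1 : ContinuousOn (fun z : V m => F (mt z) x) D :=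
      (hF.cont x).comp (f := fun z : V m => (mt z : Mat m)) continuous_id.continuousOn
        (fun z hz => hdet z hz)
    exact h1.aestronglyMeasurable hD.meas
  have A1i : ∀ z ∈ D, ∀ x : VN m N, Integrable (fun w : V m => ∑' α : ZM m,
      Φ (kk r (mt w) (cR α) (mt z)) * F (mt w) (ac N α x)) ((hm m).restrict D) := by
    intro z hz x
    refine gen _ (fun (α : ZM m) (w : V m) =>
      Φ (kk r (mt w) (cR α) (mt z)) * F (mt w) (ac N α x)) ?_ ?_
    · intro α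
      refine AEStronglyMeasurable.mul ?_ (hsm _)
      exact (((hΦm Φ hΦ'.cont).comp (hkkm r (cR α))).comp
        (measurable_id.prodMk measurable_const)).aestronglyMeasurable
    · have h1 := hACA m N T D hS F lam hH Φ hDΦ hAΦ (mt z) r x (hdet z hz) hr
      simp only [ofReal_norm] at h1
      exact h1.ne
  have hL1 : ∀ x, Integrable (fun g : V m => opAu N Φ r D F (mt g) x *
      (starRingEnd ℂ) (F (mt g) x)) ((hm m).restrict D) := by
    intro x
    obtain ⟨s, hs⟩ := p_fin hm1 hΦ' hr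
    have hpos : ∀ n : ℕ, 1 ≤ n → 0 < r * (n : ℝ) ^ (-(1 / (m : ℝ))) := by
      intro n hn
      have hn0 : (0 : ℝ) < n := by exact_mod_cast hn
      positivity
    have h2 : ∀ g ∈ D, opAu N Φ r D F (mt g) x * (starRingEnd ℂ) (F (mt g) x) =
        ∑ n ∈ s, if 1 ≤ n then (n : ℂ) ^ (((m : ℂ) - 1) / 2) * lam n *
          (Rr Φ (r * (n : ℝ) ^ (-(1 / (m : ℝ)))) F (mt g) x *
            (starRingEnd ℂ) (F (mt g) x)) else 0 := by
      intro g hg
      rw [hEIA m N T D hS F lam hH Φ hΦ' (mt g) r x (hdet g hg) hr,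
        hs (fun r' => Rr Φ r' F (mt g) x) lam (fun r' _ h0 => by
          unfold Rr
          refine setIntegral_eq_zero_of_forall_eq_zero fun z hz => ?_
          rw [h0 z hz, zero_mul]), Finset.sum_mul]
      refine Finset.sum_congr rfl fun n _ => ?_
      by_cases hn : 1 ≤ n
      · rw [if_pos hn, if_pos hn, mul_assoc]
      · rw [if_neg hn, if_neg hn, zero_mul]
    have h3 : Integrable (fun g : V m => ∑ n ∈ s, if 1 ≤ n then
        (n : ℂ) ^ (((m : ℂ) - 1) / 2) * lam n *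
          (Rr Φ (r * (n : ℝ) ^ (-(1 / (m : ℝ)))) F (mt g) x *
            (starRingEnd ℂ) (F (mt g) x)) else 0) ((hm m).restrict D) := by
      refine integrable_finsetSum _ fun n _ => ?_
      by_cases hn : 1 ≤ n
      · simp only [if_pos hn]
        exact ((p_fub hUBD hMSR hVLM hS hH hΦ' (hpos n hn)).1 x).const_mul _
      · simp only [if_neg hn]
        exact integrable_zero _ _ _
    refine h3.congr ?_
    rw [Filter.EventuallyEq, ae_restrict_iff' hD.meas]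
    exact Filter.Eventually.of_forall fun g hg => (h2 g hg).symm
  -- the left side
  have hleft : ∑ x, ∫ g in D, opAu N Φ r D F (mt g) x * (starRingEnd ℂ) (F (mt g) x) ∂(hm m) =
      ∫ g in D, ∫ w in D, ∑ x, (∑' α : ZM m, Φ (kk r (mt w) (cR α) (mt g)) *
        F (mt w) (ac N α x)) * (starRingEnd ℂ) (F (mt g) x) ∂(hm m) ∂(hm m) := by
    rw [← integral_finsetSum _ fun x _ => hL1 x]
    refine setIntegral_congr_fun hD.meas fun g hg => ?_
    rw [integral_finsetSum _ fun x _ => (A1i g hg x).mul_const _]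
    refine Finset.sum_congr rfl fun x _ => ?_
    rw [integral_mul_const]
    rfl
  have hmid : ∫ g in D, ∫ w in D, ∑ x, (∑' α : ZM m, Φ (kk r (mt w) (cR α) (mt g)) *
        F (mt w) (ac N α x)) * (starRingEnd ℂ) (F (mt g) x) ∂(hm m) ∂(hm m) =
      ((r ^ (m ^ 2) / (N : ℝ) ^ m : ℝ) : ℂ) *
        ∫ h in D, ∑ v : VN m N, (if Pr v then (∑ y, psn N (dt v y) * F (mt h) y) *
          (starRingEnd ℂ) (opAu N (cf Φ) ρ D F (cR (H v) * mt h) (xv v)) else 0) ∂(hm m) := by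
    rw [← hADB m N T D hS H xv hFrk F lam hH (cf Φ) hDΨ hAdm ρ hρ0, ← integral_const_mul]
    refine setIntegral_congr_fun hD.meas fun z hz => ?_
    show _ = ((r ^ (m ^ 2) / (N : ℝ) ^ m : ℝ) : ℂ) * _
    rw [← integral_const_mul]
    refine setIntegral_congr_fun hD.meas fun w hw => ?_
    have h1 := hADR m N hm1 hN2 Φ hΦ H xv hFrk (F (mt w)) (F (mt z)) (hF.supp (mt w))
      (hF.supp (mt z)) (fun v hv => hF.prim v hv (mt w) (hdet w hw)) (mt z) (mt w) r
      (hdet z hz) (hdet w hw) hr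
    rw [← hρ] at h1
    simp only [hcf]
    exact h1
  have hright : ∫ h in D, ∑ v : VN m N, (if Pr v then (∑ y, psn N (dt v y) * F (mt h) y) *
          (starRingEnd ℂ) (opAu N (cf Φ) ρ D F (cR (H v) * mt h) (xv v)) else 0) ∂(hm m) =
      (starRingEnd ℂ) (∑ v : VN m N, (if Pr v then ∫ h in D, (starRingEnd ℂ) (G v (mt h)) *
        thA m (fun r' => Rr (cf Φ) r' F (cR (H v) * mt h) (xv v)) lam ρ ∂(hm m) else 0)) := by
    have h1 : ∀ h ∈ D, ∑ v : VN m N, (if Pr v then (∑ y, psn N (dt v y) * F (mt h) y) *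
          (starRingEnd ℂ) (opAu N (cf Φ) ρ D F (cR (H v) * mt h) (xv v)) else 0) =
        ∑ v : VN m N, (starRingEnd ℂ) (if Pr v then (starRingEnd ℂ) (G v (mt h)) *
          thA m (fun r' => Rr (cf Φ) r' F (cR (H v) * mt h) (xv v)) lam ρ else 0) := by
      intro h hh
      refine Finset.sum_congr rfl fun v _ => ?_
      by_cases hv : Pr v
      · rw [if_pos hv, if_pos hv, hEGA m N T D hS F lam hF hnz (cf Φ) hDΨ hAdm
          (cR (H v) * mt h) ρ (xv v) (hHD v hv h hh) hρ0, hGe, map_mul, Complex.conj_conj]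
      · rw [if_neg hv, if_neg hv, map_zero]
    rw [setIntegral_congr_fun hD.meas h1, integral_finsetSum, map_sum]
    · refine Finset.sum_congr rfl fun v _ => ?_
      rw [integral_conj]
      by_cases hv : Pr v
      · simp only [if_pos hv]
      · simp only [if_neg hv, integral_zero]
    · intro v _
      refine conj_int ?_
      by_cases hv : Pr v
      · simp only [if_pos hv]
        exact (dual_sum hUBD hMSR hVLM hLMA hS hH hnz hDΨ hρ0 (hHdet v hv) (hGc v) (hGb v)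
          (xv v)).1
      · simp only [if_neg hv]
        exact integrable_zero _ _ _
  -- the local transform of the dual coefficient
  have huu : ∀ r' : ℝ, 0 < r' → ∑ v : VN m N, (if Pr v then ∫ h in D,
        (starRingEnd ℂ) (G v (mt h)) * Rr (cf Φ) r' F (cR (H v) * mt h) (xv v) ∂(hm m) else 0) =
      (((N : ℝ) ^ ((m : ℝ) / 2) : ℝ) : ℂ) * uu (cf Φ) (c2 D H xv F) r' := by
    intro r' hr'
    have e1 : ∀ z : V m, (((N : ℝ) ^ ((m : ℝ) / 2) : ℝ) : ℂ) *
        (cf Φ ((r'⁻¹ * (aN (mt z))⁻¹) • mt z) * c2 D H xv F (mt z)) =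
        ∑ v : VN m N, (if Pr v then cf Φ ((r'⁻¹ * (aN (mt z))⁻¹) • mt z) *
          ∫ h in D, (starRingEnd ℂ) (G v (mt h)) *
            F (cR (H v) * mt h * (mt z)⁻¹) (xv v) ∂(hm m) else 0) := by
      intro z
      have e2 : c2 D H xv F (mt z) = (((N : ℝ) ^ (-((m : ℝ) / 2)) : ℝ) : ℂ) *
          ∑ v : VN m N, (if Pr v then ∫ h in D, (starRingEnd ℂ) (G v (mt h)) *
            F (cR (H v) * mt h * (mt z)⁻¹) (xv v) ∂(hm m) else 0) := by
        rw [hG]
        rfl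
      have e3 : (((N : ℝ) ^ ((m : ℝ) / 2) : ℝ) : ℂ) * (((N : ℝ) ^ (-((m : ℝ) / 2)) : ℝ) : ℂ) =
          1 := by
        rw [← Complex.ofReal_mul, ← Real.rpow_add hN, add_neg_cancel, Real.rpow_zero,
          Complex.ofReal_one]
      rw [e2]
      calc (((N : ℝ) ^ ((m : ℝ) / 2) : ℝ) : ℂ) * (cf Φ ((r'⁻¹ * (aN (mt z))⁻¹) • mt z) *
            ((((N : ℝ) ^ (-((m : ℝ) / 2)) : ℝ) : ℂ) *
              ∑ v : VN m N, (if Pr v then ∫ h in D, (starRingEnd ℂ) (G v (mt h)) *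
                F (cR (H v) * mt h * (mt z)⁻¹) (xv v) ∂(hm m) else 0)))
          = ((((N : ℝ) ^ ((m : ℝ) / 2) : ℝ) : ℂ) * (((N : ℝ) ^ (-((m : ℝ) / 2)) : ℝ) : ℂ)) *
            (cf Φ ((r'⁻¹ * (aN (mt z))⁻¹) • mt z) *
              ∑ v : VN m N, (if Pr v then ∫ h in D, (starRingEnd ℂ) (G v (mt h)) *
                F (cR (H v) * mt h * (mt z)⁻¹) (xv v) ∂(hm m) else 0)) := by ring
        _ = _ := by
          rw [e3, one_mul, Finset.mul_sum]
          refine Finset.sum_congr rfl fun v _ => ?_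
          by_cases hv : Pr v
          · rw [if_pos hv, if_pos hv]
          · rw [if_neg hv, if_neg hv, mul_zero]
    unfold uu
    rw [← integral_const_mul]
    have e4 : ∫ z in Shell m, (((N : ℝ) ^ ((m : ℝ) / 2) : ℝ) : ℂ) *
        (cf Φ ((r'⁻¹ * (aN (mt z))⁻¹) • mt z) * c2 D H xv F (mt z)) ∂(hm m) =
        ∫ z in Shell m, ∑ v : VN m N, (if Pr v then cf Φ ((r'⁻¹ * (aN (mt z))⁻¹) • mt z) *
          ∫ h in D, (starRingEnd ℂ) (G v (mt h)) *
            F (cR (H v) * mt h * (mt z)⁻¹) (xv v) ∂(hm m) else 0) ∂(hm m) :=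
      integral_congr_ae (Filter.Eventually.of_forall e1)
    rw [e4, integral_finsetSum]
    · refine Finset.sum_congr rfl fun v _ => ?_
      by_cases hv : Pr v
      · simp only [if_pos hv]
        exact (fub2 hUBD hMSR hVLM hS hH hDΨ hr' (hHdet v hv) (hGc v) (hGb v) (xv v)).2.2
      · simp only [if_neg hv, integral_zero]
    · intro v _
      by_cases hv : Pr v
      · simp only [if_pos hv]
        exact (fub2 hUBD hMSR hVLM hS hH hDΨ hr' (hHdet v hv) (hGc v) (hGb v) (xv v)).2.1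
      · simp only [if_neg hv]
        exact integrable_zero _ _ _
  have hkey : ∑ v : VN m N, (if Pr v then ∫ h in D, (starRingEnd ℂ) (G v (mt h)) *
        thA m (fun r' => Rr (cf Φ) r' F (cR (H v) * mt h) (xv v)) lam ρ ∂(hm m) else 0) =
      (((N : ℝ) ^ ((m : ℝ) / 2) : ℝ) : ℂ) * thA m (uu (cf Φ) (c2 D H xv F)) lam ρ := by
    obtain ⟨S, hSd⟩ : ∃ S : VN m N → ℕ → ℂ, S = fun (v : VN m N) (n : ℕ) => if Pr v then
        (if 1 ≤ n then (n : ℂ) ^ (((m : ℂ) - 1) / 2) * lam n *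
          ∫ h in D, (starRingEnd ℂ) (G v (mt h)) *
            Rr (cf Φ) (ρ * (n : ℝ) ^ (-(1 / (m : ℝ)))) F (cR (H v) * mt h) (xv v) ∂(hm m)
        else 0) else 0 := ⟨_, rfl⟩
    have hS1 : ∀ v, Summable (S v) := by
      intro v
      rw [hSd]
      by_cases hv : Pr v
      · simp only [if_pos hv]
        exact (dual_sum hUBD hMSR hVLM hLMA hS hH hnz hDΨ hρ0 (hHdet v hv) (hGc v) (hGb v)
          (xv v)).2.1
      · simp only [if_neg hv]
        exact summable_zero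
    have hS2 : ∀ v, (if Pr v then ∫ h in D, (starRingEnd ℂ) (G v (mt h)) *
        thA m (fun r' => Rr (cf Φ) r' F (cR (H v) * mt h) (xv v)) lam ρ ∂(hm m) else 0) =
        ∑' n, S v n := by
      intro v
      rw [hSd]
      by_cases hv : Pr v
      · simp only [if_pos hv]
        exact (dual_sum hUBD hMSR hVLM hLMA hS hH hnz hDΨ hρ0 (hHdet v hv) (hGc v) (hGb v)
          (xv v)).2.2
      · simp only [if_neg hv, tsum_zero]
    rw [Finset.sum_congr rfl fun v _ => hS2 v, ← Summable.tsum_finsetSum fun v _ => hS1 v]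
    unfold thA
    rw [← tsum_mul_left]
    refine tsum_congr fun n => ?_
    rw [hSd]
    by_cases hn : 1 ≤ n
    · have hn0 : (0 : ℝ) < n := by exact_mod_cast hn
      have h1 := huu (ρ * (n : ℝ) ^ (-(1 / (m : ℝ)))) (by positivity)
      simp only [if_pos hn]
      calc ∑ v : VN m N, (if Pr v then (n : ℂ) ^ (((m : ℂ) - 1) / 2) * lam n *
            ∫ h in D, (starRingEnd ℂ) (G v (mt h)) *
              Rr (cf Φ) (ρ * (n : ℝ) ^ (-(1 / (m : ℝ)))) F (cR (H v) * mt h) (xv v) ∂(hm m)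
            else 0)
          = (n : ℂ) ^ (((m : ℂ) - 1) / 2) * lam n * ∑ v : VN m N, (if Pr v then
            ∫ h in D, (starRingEnd ℂ) (G v (mt h)) *
              Rr (cf Φ) (ρ * (n : ℝ) ^ (-(1 / (m : ℝ)))) F (cR (H v) * mt h) (xv v) ∂(hm m)
            else 0) := by
            rw [Finset.mul_sum]
            refine Finset.sum_congr rfl fun v _ => ?_
            by_cases hv : Pr v
            · rw [if_pos hv, if_pos hv]
            · rw [if_neg hv, if_neg hv, mul_zero]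
        _ = _ := by
          rw [h1]
          ring
    · simp only [if_neg hn, ite_self, Finset.sum_const_zero, mul_zero]
  rw [hleft, hmid, hright, hkey, map_mul, Complex.conj_ofReal, ← mul_assoc,
    ← Complex.ofReal_mul, ← hρ]
  have hc : r ^ (m ^ 2) / (N : ℝ) ^ m * (N : ℝ) ^ ((m : ℝ) / 2) =
      r ^ (m ^ 2) * (N : ℝ) ^ (-((m : ℝ) / 2)) := by
    have h1 : (N : ℝ) ^ m = (N : ℝ) ^ ((m : ℝ) / 2) * (N : ℝ) ^ ((m : ℝ) / 2) := by
      rw [← Real.rpow_add hN, add_halves, Real.rpow_natCast]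
    have h2 : (N : ℝ) ^ ((m : ℝ) / 2) ≠ 0 := (Real.rpow_pos_of_pos hN _).ne'
    rw [h1, Real.rpow_neg hN.le]
    field_simp
  rw [hc]

end Pool.Agent.H31.GA
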